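import Pool.Agent.V11203.Rips.Top

/-!
# Vietoris-Rips complexes of products with a circle
-/

set_option autoImplicit false

open Set Topology

namespace Pool.Agent.V11203.Rips

lemma circle_norm_le (x : ℝ) : ‖(x : UnitAddCircle)‖ ≤ |x| := by
  rw [UnitAddCircle.norm_eq]
  have := round_le x 0
  simpa using this

lemma circle_norm_half : ‖((1 / 2 : ℝ) : UnitAddCircle)‖ = 1 / 2 := by
  rw [UnitAddCircle.norm_eq]
  have h : round (1 / 2 : ℝ) = 1 := by
    rw [round_eq]
    norm_num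
  rw [h]
  norm_num

lemma circle_lt {p : ℕ} (hp : Odd p) (i j : ℤ) (hij : i ≠ j) (h1 : |i - j| < p) (c : ℤ)
    (hc : c = 0 ∨ c = 1 ∨ c = -1) :
    ‖((((i : ℝ) - j) / p + c / 2 : ℝ) : UnitAddCircle)‖ < 1 / 2 := by
  have hp0 : (0 : ℝ) < p := by
    have : 0 < p := hp.pos
    exact_mod_cast this
  rw [UnitAddCircle.norm_eq]
  set x : ℝ := ((i : ℝ) - j) / p + c / 2 with hx
  refine lt_of_le_of_ne (abs_sub_round x) ?_
  intro h
  set n := round x with hn
  have key : (2 * (i - j) + p * c - 2 * n * p = (p : ℤ)) ∨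
      (2 * (i - j) + p * c - 2 * n * p = -(p : ℤ)) := by
    have e : (2 * ((i : ℝ) - j) + p * c - 2 * n * p) = 2 * p * (x - n) := by
      rw [hx]
      field_simp
    rcases abs_eq (by norm_num : (0 : ℝ) ≤ 1 / 2) |>.1 h with h2 | h2
    · left
      rw [h2] at e
      have : (2 * ((i : ℝ) - j) + p * c - 2 * n * p) = p := by rw [e]; ring
      exact_mod_cast this
    · right
      rw [h2] at e
      have : (2 * ((i : ℝ) - j) + p * c - 2 * n * p) = -p := by rw [e]; ring
      exact_mod_cast this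
  obtain ⟨q, hq⟩ := hp
  have hdiv : ∀ t : ℤ, i - j = t * p → False := by
    intro t ht
    have hpos : 0 ≤ |i - j| := abs_nonneg _
    have h3 : |i - j| = |t| * p := by rw [ht, abs_mul, Nat.abs_cast]
    have h4 : t ≠ 0 := by
      rintro rfl
      apply hij
      linarith
    have h5 : 1 ≤ |t| := Int.one_le_abs h4
    have hpn : (0 : ℤ) ≤ p := by positivity
    nlinarith
  rcases hc with rfl | rfl | rfl
  · have hq' : (p : ℤ) = 2 * q + 1 := by exact_mod_cast hq
    generalize n * (p : ℤ) = t at *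
    rcases key with k | k
    · have : 2 * (i - j) - 2 * (n * p) = (p : ℤ) := by linarith
      omega
    · have : 2 * (i - j) - 2 * (n * p) = -(p : ℤ) := by linarith
      omega
  · rcases key with k | k
    · exact hdiv n (by linarith)
    · exact hdiv (n - 1) (by linarith)
  · rcases key with k | k
    · exact hdiv (n + 1) (by linarith)
    · exact hdiv n (by linarith)

lemma circle_near {p : ℕ} (hp : 0 < p) (y : UnitAddCircle) :
    ∃ j : Fin p, ‖y - ((j : ℝ) / p : ℝ)‖ ≤ 1 / (2 * p) := by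
  have hp0 : (0 : ℝ) < p := by exact_mod_cast hp
  obtain ⟨x, rfl⟩ := QuotientAddGroup.mk_surjective y
  set k : ℤ := round (x * p) with hk
  have h0 : (0 : ℤ) ≤ k % p := Int.emod_nonneg _ (by exact_mod_cast hp.ne')
  have h1 : k % p < p := Int.emod_lt_of_pos _ (by exact_mod_cast hp)
  refine ⟨⟨(k % p).toNat, by omega⟩, ?_⟩
  have h2 : (((k % p).toNat : ℕ) : ℝ) = k - p * (k / p : ℤ) := by
    have h3 : (((k % p).toNat : ℕ) : ℤ) = k - p * (k / p) := by
      rw [Int.toNat_of_nonneg h0]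
      have := Int.emod_add_mul_ediv k p
      linarith
    exact_mod_cast h3
  have h4 : ((((k % p).toNat : ℕ) : ℝ) / p : ℝ) = k / p - (k / p : ℤ) := by
    rw [h2]
    field_simp
  have h5 : (QuotientAddGroup.mk x : UnitAddCircle) - (((((k % p).toNat : ℕ) : ℝ) / p : ℝ) :
      UnitAddCircle) = ((x - k / p : ℝ) : UnitAddCircle) := by
    rw [h4]
    change ((x : ℝ) : UnitAddCircle) - _ = _
    rw [AddCircle.coe_sub, AddCircle.coe_sub]
    have h6 : (((k / p : ℤ) : ℝ) : UnitAddCircle) = 0 := by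
      rw [AddCircle.coe_eq_zero_iff]
      exact ⟨(k / p : ℤ), by simp⟩
    rw [h6, sub_zero]
  change ‖(QuotientAddGroup.mk x : UnitAddCircle) - (((((k % p).toNat : ℕ) : ℝ) / p : ℝ) :
      UnitAddCircle)‖ ≤ _
  rw [h5]
  refine (circle_norm_le _).trans ?_
  have h7 : x - k / p = (x * p - k) / p := by field_simp
  rw [h7, abs_div, abs_of_pos hp0, div_le_div_iff₀ hp0 (by positivity)]
  have h8 := abs_sub_round (x * p)
  rw [← hk] at h8
  nlinarith

lemma circle_far {p : ℕ} (hp : 0 < p) (y : UnitAddCircle) :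
    ∃ j : Fin p, 1 / 2 - 1 / (2 * p) ≤ ‖y - ((j : ℝ) / p : ℝ)‖ := by
  obtain ⟨j, hj⟩ := circle_near hp (y + ((1 / 2 : ℝ) : UnitAddCircle))
  refine ⟨j, ?_⟩
  have h1 : ((1 / 2 : ℝ) : UnitAddCircle) = (y + ((1 / 2 : ℝ) : UnitAddCircle) -
      ((j : ℝ) / p : ℝ)) - (y - ((j : ℝ) / p : ℝ)) := by abel
  have h2 := norm_sub_le (y + ((1 / 2 : ℝ) : UnitAddCircle) - ((j : ℝ) / p : ℝ))
    (y - ((j : ℝ) / p : ℝ))
  rw [← h1, circle_norm_half] at h2
  linarith

section prod

variable {N : Type} [MetricSpace N]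

lemma dist_sq (x y : WithLp 2 (UnitAddCircle × N)) :
    dist x y ^ 2 = dist x.fst y.fst ^ 2 + dist x.snd y.snd ^ 2 := by
  have h2 : ENNReal.toReal 2 = 2 := by norm_num
  rw [WithLp.prod_dist_eq_add (by rw [h2]; norm_num), h2]
  rw [← Real.sqrt_eq_rpow, Real.sq_sqrt (by positivity)]
  simp only [Real.rpow_two]

lemma dist_lt_iff (x y : WithLp 2 (UnitAddCircle × N)) {a : ℝ} (ha : 0 < a) :
    dist x y < a ↔ dist x.fst y.fst ^ 2 + dist x.snd y.snd ^ 2 < a ^ 2 := by
  rw [← dist_sq, sq_lt_sq₀ dist_nonneg ha.le]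

end prod

end Pool.Agent.V11203.Rips
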