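import Mathlib

/-!
# Vietoris-Rips complexes and geometric realisations
-/

set_option autoImplicit false

open Set Topology

namespace Pool.Agent.V11203.Rips

/-- the simplices of the Vietoris-Rips complex `VR_<(Y; r)`: the nonempty finite subsets of `Y` of
diameter less than `r` -/
def VR (Y : Type*) [MetricSpace Y] (r : ℝ) : Set (Finset Y) :=
  {σ | σ.Nonempty ∧ ∀ x ∈ σ, ∀ y ∈ σ, dist x y < r}

/-- the closed simplex with the vertex set `σ`: the barycentric coordinates, a subspace of
`V → ℝ` -/
def Face {V : Type*} (σ : Finset V) : Type _ :=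
  {x : V → ℝ // (∀ v, 0 ≤ x v) ∧ (∀ v, v ∉ σ → x v = 0) ∧ ∑ v ∈ σ, x v = 1}

instance {V : Type*} (σ : Finset V) : TopologicalSpace (Face σ) :=
  inferInstanceAs (TopologicalSpace {x : V → ℝ // (∀ v, 0 ≤ x v) ∧ (∀ v, v ∉ σ → x v = 0) ∧
    ∑ v ∈ σ, x v = 1})

/-- the geometric realisation of the simplicial complex with the set of simplices `K`:
the union of the closed simplices -/
def Realization {V : Type*} (K : Set (Finset V)) : Type _ :=
  {x : V → ℝ // ∃ σ ∈ K, (∀ v, 0 ≤ x v) ∧ (∀ v, v ∉ σ → x v = 0) ∧ ∑ v ∈ σ, x v = 1}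

/-- the inclusion of a closed simplex -/
def Face.incl {V : Type*} {K : Set (Finset V)} (σ : K) : Face σ.1 → Realization K :=
  fun x => ⟨x.1, σ.1, σ.2, x.2⟩

/-- the weak topology: a set is open if and only if its intersection with every closed simplex is
open in the closed simplex -/
instance {V : Type*} (K : Set (Finset V)) : TopologicalSpace (Realization K) :=
  ⨆ σ : K, TopologicalSpace.coinduced (Face.incl σ) inferInstance

section basic

variable {V : Type*} {K : Set (Finset V)}

lemma isOpen_iff (U : Set (Realization K)) :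
    IsOpen U ↔ ∀ σ : K, IsOpen (Face.incl σ ⁻¹' U) := by
  rw [isOpen_iSup_iff]
  exact forall_congr' fun σ => isOpen_coinduced

lemma continuous_iff {Z : Type*} [TopologicalSpace Z] (f : Realization K → Z) :
    Continuous f ↔ ∀ σ : K, Continuous fun x : Face σ.1 => f (Face.incl σ x) := by
  constructor
  · intro h σ
    refine ⟨fun U hU => ?_⟩
    exact (isOpen_iff _).1 (hU.preimage h) σ
  · intro h
    refine ⟨fun U hU => ?_⟩
    rw [isOpen_iff]
    intro σ
    exact hU.preimage (h σ)

lemma continuous_incl (σ : K) : Continuous (Face.incl σ) :=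
  (continuous_iff (fun x => x)).1 continuous_id σ

lemma continuous_val : Continuous (fun x : Realization K => (x.1 : V → ℝ)) := by
  rw [continuous_iff]
  intro σ
  exact continuous_subtype_val

lemma compactSpace_face (σ : Finset V) : CompactSpace (Face σ) := by
  classical
  have h : IsCompact {x : V → ℝ | (∀ v, 0 ≤ x v) ∧ (∀ v, v ∉ σ → x v = 0) ∧
      ∑ v ∈ σ, x v = 1} := by
    refine IsCompact.of_isClosed_subset
      (isCompact_univ_pi (fun _ : V => isCompact_Icc (a := (0 : ℝ)) (b := 1))) ?_ ?_
    · refine IsClosed.inter ?_ (IsClosed.inter ?_ ?_)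
      · have h1 : {x : V → ℝ | ∀ v, 0 ≤ x v} = ⋂ v, {x : V → ℝ | 0 ≤ x v} := by
          ext x
          simp
        rw [show (fun x : V → ℝ => ∀ v, 0 ≤ x v) = {x : V → ℝ | ∀ v, 0 ≤ x v} from rfl, h1]
        exact isClosed_iInter fun v => isClosed_le continuous_const (continuous_apply v)
      · have h1 : {x : V → ℝ | ∀ v, v ∉ σ → x v = 0} = ⋂ v, ⋂ _ : v ∉ σ, {x : V → ℝ | x v = 0} := by
          ext x
          simp
        rw [show (fun x : V → ℝ => ∀ v, v ∉ σ → x v = 0) =
          {x : V → ℝ | ∀ v, v ∉ σ → x v = 0} from rfl, h1]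
        exact isClosed_iInter fun v => isClosed_iInter fun _ =>
          isClosed_eq (continuous_apply v) continuous_const
      · exact isClosed_eq (continuous_finsetSum _ fun v _ => continuous_apply v) continuous_const
    · rintro x ⟨h0, h1, h2⟩ v -
      refine ⟨h0 v, ?_⟩
      by_cases hv : v ∈ σ
      · rw [← h2]
        exact Finset.single_le_sum (fun u _ => h0 u) hv
      · rw [h1 v hv]
        exact zero_le_one
  exact isCompact_iff_compactSpace.1 h

lemma compactSpace [Finite V] : CompactSpace (Realization K) := by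
  have : Finite K := Finite.of_injective (fun σ : K => σ.1) Subtype.val_injective
  refine ⟨?_⟩
  have h : (univ : Set (Realization K)) = ⋃ σ : K, range (Face.incl σ) := by
    refine (eq_univ_of_forall fun x => ?_).symm
    obtain ⟨x, σ, hσ, hx⟩ := x
    exact mem_iUnion.2 ⟨⟨σ, hσ⟩, ⟨⟨x, hx⟩, rfl⟩⟩
  rw [h]
  refine isCompact_iUnion fun σ => ?_
  have := compactSpace_face σ.1
  exact isCompact_range (continuous_incl σ)

lemma isClosedEmbedding_val [Finite V] :
    IsClosedEmbedding (fun x : Realization K => (x.1 : V → ℝ)) := by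
  have := compactSpace (K := K)
  exact continuous_val.isClosedEmbedding Subtype.val_injective

end basic

end Pool.Agent.V11203.Rips
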