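import Pool.Agent.V11203.Rips.Circle

/-!
# Dense subsets of products with a circle
-/

set_option autoImplicit false

open Set Topology

namespace Pool.Agent.V11203.Rips

variable {N : Type} [MetricSpace N]

/-- the vertices of a regular polygon in a slice -/
noncomputable def V (n₀ : N) (p : ℕ) (j : Fin p) : WithLp 2 (UnitAddCircle × N) :=
  WithLp.toLp 2 ((((j : ℝ) / p : ℝ) : UnitAddCircle), n₀)

/-- the antipodes -/
noncomputable def V' (n₀ : N) (p : ℕ) (j : Fin p) : WithLp 2 (UnitAddCircle × N) :=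
  WithLp.toLp 2 ((((j : ℝ) / p + 1 / 2 : ℝ) : UnitAddCircle), n₀)

lemma dist_slice (n₀ : N) (a b : ℝ) :
    dist (WithLp.toLp 2 ((a : UnitAddCircle), n₀) : WithLp 2 (UnitAddCircle × N))
      (WithLp.toLp 2 ((b : UnitAddCircle), n₀)) = ‖((a - b : ℝ) : UnitAddCircle)‖ := by
  rw [← sq_eq_sq₀ dist_nonneg (norm_nonneg _), dist_sq]
  change dist ((a : ℝ) : UnitAddCircle) ((b : ℝ) : UnitAddCircle) ^ 2 + dist n₀ n₀ ^ 2 = _
  rw [dist_self, dist_eq_norm, AddCircle.coe_sub]
  ring

lemma dist_V_V {n₀ : N} {p : ℕ} (hp : Odd p) {i j : Fin p} (hij : i ≠ j) :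
    dist (V n₀ p i) (V n₀ p j) < 1 / 2 := by
  unfold V
  rw [dist_slice]
  have h := circle_lt hp (i : ℤ) (j : ℤ) (by exact_mod_cast fun h => hij (Fin.ext h))
    (by rw [abs_lt]; constructor <;> omega) 0 (Or.inl rfl)
  refine lt_of_eq_of_lt ?_ h
  push_cast
  congr 2
  ring

lemma dist_V'_V' {n₀ : N} {p : ℕ} (hp : Odd p) {i j : Fin p} (hij : i ≠ j) :
    dist (V' n₀ p i) (V' n₀ p j) < 1 / 2 := by
  unfold V'
  rw [dist_slice]
  have h := circle_lt hp (i : ℤ) (j : ℤ) (by exact_mod_cast fun h => hij (Fin.ext h))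
    (by rw [abs_lt]; constructor <;> omega) 0 (Or.inl rfl)
  refine lt_of_eq_of_lt ?_ h
  push_cast
  congr 2
  ring

lemma dist_V_V' {n₀ : N} {p : ℕ} (hp : Odd p) {i j : Fin p} (hij : i ≠ j) :
    dist (V n₀ p i) (V' n₀ p j) < 1 / 2 := by
  unfold V V'
  rw [dist_slice]
  have h := circle_lt hp (i : ℤ) (j : ℤ) (by exact_mod_cast fun h => hij (Fin.ext h))
    (by rw [abs_lt]; constructor <;> omega) (-1) (Or.inr (Or.inr rfl))
  refine lt_of_eq_of_lt ?_ h
  push_cast
  congr 2
  ring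

lemma dist_V_V'_self (n₀ : N) (p : ℕ) (j : Fin p) :
    dist (V n₀ p j) (V' n₀ p j) = 1 / 2 := by
  unfold V V'
  rw [dist_slice, show (j : ℝ) / p - ((j : ℝ) / p + 1 / 2) = -(1 / 2) by ring, AddCircle.coe_neg,
    norm_neg, circle_norm_half]

lemma V_injective {n₀ : N} {p : ℕ} (hp : Odd p) {i j : Fin p} (h : V n₀ p i = V n₀ p j) :
    i = j := by
  by_contra hij
  have h1 := dist_V_V' (n₀ := n₀) hp hij
  rw [h, dist_V_V'_self] at h1
  exact lt_irrefl _ h1

lemma V'_ne_V {n₀ : N} {p : ℕ} (hp : Odd p) (i j : Fin p) : V' n₀ p j ≠ V n₀ p i := by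
  intro h
  have h0 := dist_V_V'_self n₀ p j
  rw [h] at h0
  by_cases hij : j = i
  · rw [hij, dist_self] at h0
    norm_num at h0
  · have := dist_V_V (n₀ := n₀) hp hij
    rw [h0] at this
    exact lt_irrefl _ this

open Classical in
/-- the index of a vertex of the polygon -/
noncomputable def cl (n₀ : N) (p : ℕ) (X : Set (WithLp 2 (UnitAddCircle × N))) (u : X) :
    Option (Fin p) :=
  if h : ∃ j, (u : WithLp 2 (UnitAddCircle × N)) = V n₀ p j then some (Classical.choose h)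
  else none

lemma cl_of_eq {n₀ : N} {p : ℕ} (hp : Odd p) {X : Set (WithLp 2 (UnitAddCircle × N))} {u : X}
    {j : Fin p} (hu : (u : WithLp 2 (UnitAddCircle × N)) = V n₀ p j) : cl n₀ p X u = some j := by
  have h : ∃ j, (u : WithLp 2 (UnitAddCircle × N)) = V n₀ p j := ⟨j, hu⟩
  unfold cl
  rw [dif_pos h]
  congr 1
  exact V_injective hp ((Classical.choose_spec h).symm.trans hu)

lemma eq_of_cl {n₀ : N} {p : ℕ} {X : Set (WithLp 2 (UnitAddCircle × N))} {u : X}
    {j : Fin p} (hu : cl n₀ p X u = some j) : (u : WithLp 2 (UnitAddCircle × N)) = V n₀ p j := by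
  unfold cl at hu
  split_ifs at hu with h
  have h1 := Classical.choose_spec h
  rw [Option.some.inj hu] at h1
  exact h1

open Classical in
/-- arbitrarily dense finite sets whose complexes contain large cross-polytopes with a maximal
facet -/
theorem exists_sets [CompactSpace N] (n₀ : N) {ε : ℝ} (hε : 0 < ε) (m₀ : ℕ) :
    ∃ (m : ℕ) (X : Set (WithLp 2 (UnitAddCircle × N))), m₀ < m ∧ X.Finite ∧
      (∀ y, ∃ x ∈ X, dist y x < ε) ∧
      ∃ (c : X → Option (Fin (m + 1))) (v v' : Fin (m + 1) → X),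
        (∀ j, c (v j) = some j) ∧ (∀ j, c (v' j) = none) ∧
        (∀ e : Fin (m + 1) → Bool,
          (Finset.univ.image fun j => if e j then v j else v' j) ∈ VR X (1 / 2)) ∧
        ∀ T ∈ VR X (1 / 2), (∀ j, ∃ u ∈ T, c u = some j) → ∀ u ∈ T, c u ≠ none := by
  obtain ⟨q, hq⟩ := exists_nat_ge (2 / ε + 2 / ε ^ 2 + m₀ + 1)
  have hq0 : (0 : ℝ) < q := lt_of_lt_of_le (by positivity) hq
  have hqm : m₀ < 2 * q := by
    have h1 : (m₀ : ℝ) < 2 * q := by
      have : (0 : ℝ) < 2 / ε + 2 / ε ^ 2 := by positivity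
      linarith
    exact_mod_cast h1
  set m : ℕ := 2 * q with hm
  set p : ℕ := m + 1 with hpdef
  have hp : Odd p := ⟨q, by omega⟩
  have hp0 : 0 < p := by omega
  have hpR : (p : ℝ) = 2 * q + 1 := by
    rw [hpdef, hm]
    push_cast
    ring
  have hp0R : (0 : ℝ) < p := by exact_mod_cast hp0
  have hsmall1 : 1 / (2 * (p : ℝ)) < ε / 2 := by
    have h1 : 2 / ε ≤ q := by
      have : (0 : ℝ) < 2 / ε ^ 2 := by positivity
      have : (0 : ℝ) ≤ m₀ := by positivity
      linarith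
    rw [div_le_iff₀ hε] at h1
    rw [div_lt_div_iff₀ (by positivity) (by norm_num), hpR]
    nlinarith
  have hsmall2 : 1 / (2 * (p : ℝ)) ≤ (ε / 2) ^ 2 := by
    have h1 : 2 / ε ^ 2 ≤ q := by
      have : (0 : ℝ) < 2 / ε := by positivity
      have : (0 : ℝ) ≤ m₀ := by positivity
      linarith
    rw [div_le_iff₀ (by positivity)] at h1
    rw [div_le_iff₀ (by positivity), hpR]
    nlinarith [sq_nonneg ε, hε]
  -- the points away from the slice
  have hcomp : CompactSpace (WithLp 2 (UnitAddCircle × N)) :=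
    (WithLp.homeomorphProd 2 UnitAddCircle N).symm.compactSpace
  have hsnd : Continuous fun x : WithLp 2 (UnitAddCircle × N) => x.snd :=
    continuous_snd.comp (WithLp.homeomorphProd 2 UnitAddCircle N).continuous
  have hC : IsCompact {x : WithLp 2 (UnitAddCircle × N) | ε / 2 ≤ dist x.snd n₀} :=
    (isClosed_le continuous_const (hsnd.dist continuous_const)).isCompact
  obtain ⟨Y, hYC, hYf, hYd⟩ := hC.finite_cover_balls hε
  set X : Set (WithLp 2 (UnitAddCircle × N)) := range (V n₀ p) ∪ range (V' n₀ p) ∪ Y with hX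
  have hVX : ∀ j, V n₀ p j ∈ X := fun j => Or.inl (Or.inl ⟨j, rfl⟩)
  have hV'X : ∀ j, V' n₀ p j ∈ X := fun j => Or.inl (Or.inr ⟨j, rfl⟩)
  refine ⟨m, X, hqm, ((finite_range _).union (finite_range _)).union hYf, ?_, ?_⟩
  · intro y
    rcases lt_or_ge (dist y.snd n₀) (ε / 2) with h | h
    · obtain ⟨j, hj⟩ := circle_near hp0 y.fst
      refine ⟨V n₀ p j, hVX j, ?_⟩
      rw [dist_lt_iff _ _ hε]
      have h1 : dist y.fst (V n₀ p j).fst < ε / 2 := by
        rw [dist_eq_norm]
        exact hj.trans_lt hsmall1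
      have h2 : dist y.snd (V n₀ p j).snd < ε / 2 := h
      have h3 : dist y.fst (V n₀ p j).fst ^ 2 < (ε / 2) ^ 2 :=
        pow_lt_pow_left₀ h1 dist_nonneg (by norm_num)
      have h4 : dist y.snd (V n₀ p j).snd ^ 2 < (ε / 2) ^ 2 :=
        pow_lt_pow_left₀ h2 dist_nonneg (by norm_num)
      nlinarith [sq_nonneg ε, hε]
    · have h1 := hYd h
      simp only [mem_iUnion, Metric.mem_ball] at h1
      obtain ⟨x, hx, hxy⟩ := h1
      exact ⟨x, Or.inr hx, hxy⟩
  · refine ⟨cl n₀ p X, fun j => ⟨V n₀ p j, hVX j⟩, fun j => ⟨V' n₀ p j, hV'X j⟩, ?_, ?_, ?_, ?_⟩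
    · intro j
      exact cl_of_eq hp rfl
    · intro j
      by_contra h
      obtain ⟨i, hi⟩ := Option.ne_none_iff_exists'.1 h
      exact V'_ne_V hp i j (eq_of_cl hi)
    · intro e
      refine ⟨⟨_, Finset.mem_image_of_mem _ (Finset.mem_univ 0)⟩, ?_⟩
      intro x hx y hy
      rw [Finset.mem_image] at hx hy
      obtain ⟨i, -, rfl⟩ := hx
      obtain ⟨j, -, rfl⟩ := hy
      by_cases hij : i = j
      · rw [hij, dist_self]
        norm_num
      · rw [Subtype.dist_eq]
        cases e i <;> cases e j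
        · exact dist_V'_V' hp hij
        · rw [dist_comm]
          exact dist_V_V' hp (Ne.symm hij)
        · exact dist_V_V' hp hij
        · exact dist_V_V hp hij
    · intro T hT hTj u hu
      have hv : ∀ j, (⟨V n₀ p j, hVX j⟩ : X) ∈ T := by
        intro j
        obtain ⟨w, hw, hwj⟩ := hTj j
        have : w = ⟨V n₀ p j, hVX j⟩ := Subtype.ext (eq_of_cl hwj)
        rwa [← this]
      have hex : ∃ j, (u : WithLp 2 (UnitAddCircle × N)) = V n₀ p j := by
        rcases u.2 with (⟨j, hj⟩ | ⟨j, hj⟩) | hY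
        · exact ⟨j, hj.symm⟩
        · exfalso
          have h1 := hT.2 _ (hv j) u hu
          rw [Subtype.dist_eq, ← hj, dist_V_V'_self] at h1
          exact lt_irrefl _ h1
        · exfalso
          obtain ⟨j, hj⟩ := circle_far hp0 (u : WithLp 2 (UnitAddCircle × N)).fst
          have h1 := hT.2 u hu _ (hv j)
          rw [Subtype.dist_eq, dist_lt_iff _ _ (by norm_num)] at h1
          have h2 : ε / 2 ≤ dist (u : WithLp 2 (UnitAddCircle × N)).snd (V n₀ p j).snd := hYC hY
          have h3 : 1 / 2 - 1 / (2 * (p : ℝ)) ≤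
              dist (u : WithLp 2 (UnitAddCircle × N)).fst (V n₀ p j).fst := by
            rw [dist_eq_norm]
            exact hj
          have h4 : (0 : ℝ) ≤ 1 / 2 - 1 / (2 * (p : ℝ)) := by
            have : 1 / (2 * (p : ℝ)) ≤ 1 / 2 := by
              apply one_div_le_one_div_of_le (by norm_num)
              have : (1 : ℝ) ≤ p := by exact_mod_cast hp0
              linarith
            linarith
          have h5 : (1 / 2 - 1 / (2 * (p : ℝ))) ^ 2 ≤
              dist (u : WithLp 2 (UnitAddCircle × N)).fst (V n₀ p j).fst ^ 2 :=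
            pow_le_pow_left₀ h4 h3 2
          have h6 : (ε / 2) ^ 2 ≤
              dist (u : WithLp 2 (UnitAddCircle × N)).snd (V n₀ p j).snd ^ 2 :=
            pow_le_pow_left₀ (by positivity) h2 2
          nlinarith [sq_nonneg (1 / (2 * (p : ℝ)))]
      obtain ⟨j, hj⟩ := hex
      rw [cl_of_eq hp hj]
      exact Option.some_ne_none _

/-- the homotopy type of the Vietoris-Rips complex of `S¹ × N` at scale half of the length of the
circle is not the one of all sufficiently dense subsets -/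
theorem main [CompactSpace N] [Nonempty N] {ε : ℝ} (hε : 0 < ε) :
    ∃ X : Set (WithLp 2 (UnitAddCircle × N)), X.Finite ∧ (∀ y, ∃ x ∈ X, dist y x < ε) ∧
      IsEmpty (ContinuousMap.HomotopyEquiv (Realization (VR X (1 / 2)))
        (Realization (VR (WithLp 2 (UnitAddCircle × N)) (1 / 2)))) := by
  classical
  by_contra hcon
  push Not at hcon
  obtain ⟨n₀⟩ := (inferInstance : Nonempty N)
  obtain ⟨m₁, X₁, -, hf₁, hd₁, -⟩ := exists_sets n₀ hε 0
  have : Fintype X₁ := hf₁.fintype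
  obtain ⟨m, X₂, hm, hf₂, hd₂, c, v, v', hv, hv', hK, hmax⟩ :=
    exists_sets n₀ hε (Fintype.card X₁)
  have : Fintype X₂ := hf₂.fintype
  obtain ⟨e₁⟩ := hcon X₁ hf₁ hd₁
  obtain ⟨e₂⟩ := hcon X₂ hf₂ hd₂
  let e := e₂.trans e₁.symm
  exact not_dominated (K₁ := VR X₁ (1 / 2)) hm c v v' hv hv' hK hmax e.toFun e.invFun e.left_inv

end Pool.Agent.V11203.Rips
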