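import Pool.Agent.V11203.Rips.Defs
import Pool.Agent.W623.VR.Top

/-!
# A cross-polytope with a maximal facet is a homotopy retract

If `K₂` is a finite complex containing the boundary of a cross-polytope with `m + 1` pairs of
vertices, one facet of which is a maximal simplex of `K₂`, then the realisation of `K₂` is not
dominated by the realisation of a complex with less than `m` vertices.
-/

set_option autoImplicit false

open Set Topology

namespace Pool.Agent.V11203.Rips

open Pool.Agent.W623.VR (cls Phi SS pt)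

/-- the punctured space -/
abbrev Pu (m : ℕ) : Type := {y : Fin m → ℝ // y ≠ 0}

section straight

variable {B : Type*} [TopologicalSpace B] {m : ℕ}

/-- straight line homotopies -/
lemma homotopic_of_segment (f g : C(B, Pu m))
    (h : ∀ (x : B) (t : ℝ), 0 ≤ t → t ≤ 1 → (1 - t) • (f x).1 + t • (g x).1 ≠ 0) :
    ContinuousMap.Homotopic f g := by
  refine ⟨⟨⟨fun z => ⟨(1 - (z.1 : ℝ)) • (f z.2).1 + (z.1 : ℝ) • (g z.2).1,
    h z.2 z.1 z.1.2.1 z.1.2.2⟩, ?_⟩, ?_, ?_⟩⟩
  · refine Continuous.subtype_mk ?_ _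
    have h1 : Continuous fun z : unitInterval × B => (f z.2).1 :=
      continuous_subtype_val.comp (f.continuous.comp continuous_snd)
    have h2 : Continuous fun z : unitInterval × B => (g z.2).1 :=
      continuous_subtype_val.comp (g.continuous.comp continuous_snd)
    have h3 : Continuous fun z : unitInterval × B => (z.1 : ℝ) := continuous_subtype_val.comp continuous_fst
    exact ((continuous_const.sub h3).smul h1).add (h3.smul h2)
  · intro x
    apply Subtype.ext
    simp
  · intro x
    apply Subtype.ext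
    simp

/-- maps of a compact space of small dimension to a punctured space are homotopic to a constant -/
lemma homotopic_const {V : Type*} [Fintype V] [CompactSpace B] (j : B → (V → ℝ))
    (hj : IsClosedEmbedding j) (hm : Fintype.card V + 1 < m) (Ψ : C(B, Pu m)) :
    ∃ w : Pu m, ContinuousMap.Homotopic Ψ (ContinuousMap.const B w) := by
  classical
  rcases isEmpty_or_nonempty B with hB | hB
  · have hm0 : 0 < m := by omega
    refine ⟨⟨Pi.single ⟨0, hm0⟩ 1, fun h => ?_⟩, ?_⟩
    · have := congrFun h ⟨0, hm0⟩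
      simp at this
    · have : Ψ = ContinuousMap.const B ⟨Pi.single ⟨0, hm0⟩ 1, fun h => by
        have := congrFun h ⟨0, hm0⟩
        simp at this⟩ := by
        ext x
        exact (IsEmpty.false x).elim
      rw [this]
  -- a lower bound of the norm
  have hΨc : Continuous fun x => (Ψ x).1 := continuous_subtype_val.comp Ψ.continuous
  obtain ⟨x0, -, hx0⟩ := isCompact_univ.exists_isMinOn (univ_nonempty (α := B))
    (hΨc.norm.continuousOn)
  set δ : ℝ := ‖(Ψ x0).1‖ with hδ
  have hδ0 : 0 < δ := norm_pos_iff.2 (Ψ x0).2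
  have hδ1 : ∀ x, δ ≤ ‖(Ψ x).1‖ := fun x => hx0 (mem_univ x)
  -- extension and approximation
  obtain ⟨F, hF⟩ := ContinuousMap.exists_extension hj
    (⟨fun x => (Ψ x).1, hΨc⟩ : C(B, Fin m → ℝ))
  obtain ⟨P, hP, hPF, -⟩ := F.continuous.exists_contDiff_approx (n := ⊤) (ε := fun _ => δ)
    continuous_const (fun _ => hδ0)
  have hFj : ∀ x, F (j x) = (Ψ x).1 := fun x => by
    have := congrArg (fun f : C(B, Fin m → ℝ) => f x) hF
    simpa using this
  have hPj : ∀ x, dist (P (j x)) (Ψ x).1 < δ := fun x => by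
    rw [← hFj x]
    exact hPF (j x)
  have hseg : ∀ (x : B) (t : ℝ), 0 ≤ t → t ≤ 1 → (1 - t) • (Ψ x).1 + t • P (j x) ≠ 0 := by
    intro x t h0 h1 h
    have e1 : (Ψ x).1 = t • ((Ψ x).1 - P (j x)) := by
      have : (Ψ x).1 - t • ((Ψ x).1 - P (j x)) = (1 - t) • (Ψ x).1 + t • P (j x) := by
        rw [smul_sub, sub_smul, one_smul]
        abel
      rw [h] at this
      exact sub_eq_zero.1 this
    have h2 : ‖(Ψ x).1‖ < δ := by
      rw [e1, norm_smul, Real.norm_eq_abs, abs_of_nonneg h0]
      calc t * ‖(Ψ x).1 - P (j x)‖ ≤ 1 * ‖(Ψ x).1 - P (j x)‖ := by gcongr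
        _ = dist (P (j x)) (Ψ x).1 := by rw [one_mul, dist_comm, dist_eq_norm]
        _ < δ := hPj x
    linarith [hδ1 x]
  have hPne : ∀ x, P (j x) ≠ 0 := by
    intro x h
    refine hseg x 1 zero_le_one le_rfl ?_
    rw [h]
    simp
  -- a direction which is not taken
  have hC : ContDiff ℝ 1 (fun z : ℝ × (V → ℝ) => z.1 • P z.2) :=
    contDiff_fst.smul ((hP.of_le (by exact_mod_cast le_top)).comp contDiff_snd)
  have hdense := hC.dense_compl_range_of_finrank_lt_finrank (by
    rw [Module.finrank_prod, Module.finrank_self, Module.finrank_pi, Module.finrank_pi,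
      Fintype.card_fin]
    omega)
  obtain ⟨w, hw⟩ := hdense.nonempty
  have hw0 : w ≠ 0 := by
    intro h
    apply hw
    exact ⟨(0, 0), by simp [h]⟩
  have hjc : Continuous j := hj.continuous
  let Pb : C(B, Pu m) := ⟨fun x => ⟨P (j x), hPne x⟩,
    Continuous.subtype_mk (hP.continuous.comp hjc) _⟩
  refine ⟨⟨w, hw0⟩, (homotopic_of_segment Ψ Pb hseg).trans (homotopic_of_segment _ _ ?_)⟩
  intro x t h0 h1 h
  change (1 - t) • P (j x) + t • w = 0 at h
  rcases eq_or_lt_of_le h0 with h2 | h2
  · rw [← h2] at h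
    apply hPne x
    simpa using h
  · apply hw
    refine ⟨(-((1 - t) / t), j x), ?_⟩
    have h3 : t • w = -((1 - t) • P (j x)) := by
      rw [eq_neg_iff_add_eq_zero, add_comm]
      exact h
    have h4 : w = t⁻¹ • (t • w) := by rw [smul_smul, inv_mul_cancel₀ h2.ne', one_smul]
    change (-((1 - t) / t)) • P (j x) = w
    rw [h4, h3, smul_neg, smul_smul, neg_smul]
    congr 2
    field_simp

end straight

/-- the identity of the punctured space is essential -/
lemma not_homotopic_const {m : ℕ} (f : C(Pu m, Pu m)) (w : Pu m)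
    (hf : ∀ (g : Pu m) (c : ℝ), 0 ≤ c → (f g).1 ≠ -(c • g.1)) :
    ¬ ContinuousMap.Homotopic f (ContinuousMap.const (Pu m) w) := by
  classical
  rintro ⟨H⟩
  let t : ℝ → unitInterval := fun s => Set.projIcc 0 1 zero_le_one (2 - 2 * s)
  have ht : Continuous t := continuous_projIcc.comp (by fun_prop)
  have ht1 : t 1 = 0 := by
    simp only [t]
    norm_num
  have ht2 : ∀ s, s ≤ 1 / 2 → t s = 1 := by
    intro s hs
    simp only [t]
    exact Set.projIcc_of_right_le _ (by linarith)
  let F : (Fin m → ℝ) → (Fin m → ℝ) := fun g =>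
    if h : g ≠ 0 then (H (t ‖g‖, ⟨g, h⟩)).1 else w.1
  have hF0 : ∀ g, ‖g‖ ≤ 1 / 2 → F g = w.1 := by
    intro g hg
    simp only [F]
    split_ifs with h
    · rw [ht2 _ hg, H.apply_one]
      rfl
    · rfl
  have hF1 : ∀ g, F g ≠ 0 := by
    intro g
    simp only [F]
    split_ifs with h
    · exact (H _).2
    · exact w.2
  have hFc : Continuous F := by
    rw [continuous_iff_continuousAt]
    intro g
    by_cases hg : g = 0
    · have h1 : ∀ᶠ y in 𝓝 g, w.1 = F y := by
        have : Metric.ball g (1 / 2) ∈ 𝓝 g := Metric.ball_mem_nhds _ (by norm_num)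
        filter_upwards [this] with y hy
        rw [hg, mem_ball_zero_iff] at hy
        exact (hF0 y hy.le).symm
      exact ContinuousAt.congr continuousAt_const h1
    · have hop : IsOpen {y : Fin m → ℝ | y ≠ 0} := isOpen_ne
      have h2 : ContinuousOn F {y : Fin m → ℝ | y ≠ 0} := by
        rw [continuousOn_iff_continuous_domRestrict]
        have h3 : ({y : Fin m → ℝ | y ≠ 0}).domRestrict F =
            fun y : {y : Fin m → ℝ | y ≠ 0} => (H (t ‖y.1‖, ⟨y.1, y.2⟩)).1 := by
          funext y
          exact dif_pos y.2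
        rw [h3]
        refine continuous_subtype_val.comp (H.continuous.comp ?_)
        exact (ht.comp continuous_subtype_val.norm).prodMk
          (Continuous.subtype_mk continuous_subtype_val _)
      exact h2.continuousAt (hop.mem_nhds hg)
  have hn : ∀ g, 0 < ‖F g‖ := fun g => norm_pos_iff.2 (hF1 g)
  obtain ⟨u, hu⟩ := Pool.Agent.Helper31.GZ.Brouwer.brouwer
    (fun g => -((‖F g‖)⁻¹ • F g))
    ((hFc.norm.inv₀ fun g => (hn g).ne').smul hFc).neg 1
    (fun g => by
      rw [norm_neg, norm_smul, norm_inv, norm_norm, inv_mul_cancel₀ (hn g).ne'])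
  have hu1 : ‖u‖ = 1 := by
    rw [← hu, norm_neg, norm_smul, norm_inv, norm_norm, inv_mul_cancel₀ (hn u).ne']
  have hu0 : u ≠ 0 := by
    intro h
    rw [h, norm_zero] at hu1
    exact zero_ne_one hu1
  have hFu : F u = (f ⟨u, hu0⟩).1 := by
    simp only [F]
    rw [dif_pos hu0, hu1, ht1, H.apply_zero]
  refine hf ⟨u, hu0⟩ ‖F u‖ (norm_nonneg _) ?_
  rw [← hFu]
  change F u = -(‖F u‖ • u)
  have h5 : ‖F u‖ • u = ‖F u‖ • (-((‖F u‖)⁻¹ • F u)) := congrArg (fun z => ‖F u‖ • z) hu.symm
  rw [h5, smul_neg, neg_neg, smul_smul, mul_inv_cancel₀ (hn u).ne', one_smul]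

section cross

variable {V : Type*} [Fintype V] [DecidableEq V] {K : Set (Finset V)}

omit [Fintype V] in
lemma mem_real_of {x : V → ℝ} (hx : ∃ σ ∈ K, (∀ v, 0 ≤ x v) ∧ (∀ v, v ∉ σ → x v = 0) ∧
    ∑ v ∈ σ, x v = 1) : x ∈ Pool.Agent.W623.VR.real (fun σ => σ ∈ K) := by
  obtain ⟨σ, hσ, h0, h1, h2⟩ := hx
  simp only [Pool.Agent.W623.VR.real, mem_iUnion]
  refine ⟨σ, hσ, ?_⟩
  have e : x = ∑ v ∈ σ, x v • (Pi.single v (1 : ℝ) : V → ℝ) := by
    funext u
    rw [Finset.sum_apply]
    simp only [Pi.smul_apply, Pi.single_apply, smul_eq_mul, mul_ite, mul_one, mul_zero]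
    by_cases hu : u ∈ σ
    · simp [hu]
    · simp [hu, h1 u hu]
  rw [e]
  exact (convex_convexHull ℝ _).sum_mem (fun v _ => h0 v) h2
    fun v hv => subset_convexHull ℝ _ ⟨v, hv, rfl⟩

variable {m : ℕ}

lemma SS_pos' (g : Pu (m + 1)) : 0 < SS g.1 := by
  obtain ⟨j, hj⟩ := Function.ne_iff.1 g.2
  unfold Pool.Agent.W623.VR.SS
  exact Finset.sum_pos' (fun i _ => abs_nonneg _) ⟨j, Finset.mem_univ _, abs_pos.2 hj⟩

/-- the points of the cross-polytope -/
noncomputable def crossFun (v v' : Fin (m + 1) → V)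
    (hK : ∀ e : Fin (m + 1) → Bool, (Finset.univ.image fun j => if e j then v j else v' j) ∈ K)
    (g : Pu (m + 1)) : Realization K :=
  ⟨pt v v' g.1, by
    obtain ⟨T, hT, h0, h1, h2⟩ := Pool.Agent.W623.VR.mem_real
      (Pool.Agent.W623.VR.pt_mem (K := fun σ => σ ∈ K) v v' hK g.1 (SS_pos' g))
    refine ⟨T, hT, h0, h2, ?_⟩
    rw [← h1]
    exact Finset.sum_subset (Finset.subset_univ _) fun u _ hu => h2 u hu⟩

/-- the cross-polytope -/
noncomputable def cross (v v' : Fin (m + 1) → V)
    (hK : ∀ e : Fin (m + 1) → Bool, (Finset.univ.image fun j => if e j then v j else v' j) ∈ K) :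
    C(Pu (m + 1), Realization K) where
  toFun := crossFun v v' hK
  continuous_toFun := by
    rw [isClosedEmbedding_val.isInducing.continuous_iff]
    change Continuous fun g : Pu (m + 1) => pt v v' g.1
    unfold Pool.Agent.W623.VR.pt
    refine continuous_finsetSum _ fun j _ => ?_
    have hg : Continuous fun g : Pu (m + 1) => g.1 j :=
      (continuous_apply j).comp continuous_subtype_val
    have hS : Continuous fun g : Pu (m + 1) => SS g.1 := by
      unfold Pool.Agent.W623.VR.SS
      exact continuous_finsetSum _ fun j _ =>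
        ((continuous_apply j).comp continuous_subtype_val).abs
    refine (((hg.max continuous_const).div hS fun y => (SS_pos' y).ne').smul
      continuous_const).add ?_
    exact ((hg.neg.max continuous_const).div hS fun y => (SS_pos' y).ne').smul continuous_const

/-- the map which detects the maximal facet -/
noncomputable def detect (c : V → Option (Fin (m + 1)))
    (hmax : ∀ T ∈ K, (∀ j, ∃ u ∈ T, c u = some j) → ∀ u ∈ T, c u ≠ none) :
    C(Realization K, Pu (m + 1)) where
  toFun x := ⟨Phi (cls c x.1), fun h => Pool.Agent.W623.VR.Phi_ne_zero (K := fun σ => σ ∈ K) c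
    hmax (mem_real_of x.2) fun j => congrFun h j⟩
  continuous_toFun := Continuous.subtype_mk (Pool.Agent.W623.VR.continuous_Phi.comp
    ((Pool.Agent.W623.VR.continuous_cls c).comp continuous_val)) _

lemma detect_cross (c : V → Option (Fin (m + 1)))
    (v v' : Fin (m + 1) → V) (hv : ∀ j, c (v j) = some j) (hv' : ∀ j, c (v' j) = none)
    (hK : ∀ e : Fin (m + 1) → Bool, (Finset.univ.image fun j => if e j then v j else v' j) ∈ K)
    (hmax : ∀ T ∈ K, (∀ j, ∃ u ∈ T, c u = some j) → ∀ u ∈ T, c u ≠ none)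
    (g : Pu (m + 1)) (a : ℝ) (ha : 0 ≤ a) : (detect c hmax (cross v v' hK g)).1 ≠ -(a • g.1) := by
  intro h
  have hS : 0 < SS g.1 := SS_pos' g
  have hcls : cls c (pt v v' g.1) = fun j => max (g.1 j) 0 / SS g.1 := by
    funext j
    exact Pool.Agent.W623.VR.cls_pt c v v' hv hv' g.1 j
  have h1 : ∀ j, max (g.1 j) 0 / SS g.1 - (1 - (m + 1) * Pool.Agent.W623.VR.mn
      (fun j => max (g.1 j) 0 / SS g.1)) = -(a * g.1 j) := by
    intro j
    have := congrFun h j
    change Phi (cls c (pt v v' g.1)) j = _ at this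
    rw [hcls] at this
    exact this
  set μ := Pool.Agent.W623.VR.mn (fun j => max (g.1 j) 0 / SS g.1) with hμ
  have hμle : ∀ j, μ ≤ max (g.1 j) 0 / SS g.1 := fun j => Pool.Agent.W623.VR.mn_le _ j
  obtain ⟨i, hi⟩ := Pool.Agent.W623.VR.exists_mn (fun j => max (g.1 j) 0 / SS g.1)
  rw [← hμ] at hi
  have hm : (0 : ℝ) < (m : ℝ) + 1 := by positivity
  by_cases hneg : ∃ k, g.1 k ≤ 0
  · obtain ⟨k, hk⟩ := hneg
    have h0 : μ = 0 := by
      refine le_antisymm ?_ ?_
      · have := hμle k
        rwa [max_eq_right hk, zero_div] at this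
      · rw [hi]
        positivity
    have h2 := h1 k
    rw [max_eq_right hk, zero_div, h0] at h2
    have h3 : a * g.1 k ≤ 0 := mul_nonpos_of_nonneg_of_nonpos ha hk
    linarith
  · push Not at hneg
    have hpos : ∀ j, max (g.1 j) 0 / SS g.1 = g.1 j / SS g.1 := fun j => by
      rw [max_eq_left (hneg j).le]
    simp only [hpos] at h1 hμle hi
    -- all coordinates agree
    have hall : ∀ j, g.1 j * (1 / SS g.1 + a) = 1 - (m + 1) * μ := by
      intro j
      have := h1 j
      have e : g.1 j * (1 / SS g.1 + a) = g.1 j / SS g.1 + a * g.1 j := by ring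
      rw [e]
      linarith
    have hfac : 0 < 1 / SS g.1 + a := by positivity
    have hSum : ∑ j, g.1 j / SS g.1 = 1 := by
      rw [← Finset.sum_div]
      have : SS g.1 = ∑ j, g.1 j := by
        unfold Pool.Agent.W623.VR.SS
        exact Finset.sum_congr rfl fun j _ => abs_of_pos (hneg j)
      rw [this]
      apply div_self
      rw [← this]
      exact hS.ne'
    have hconst : ∀ j, g.1 j / SS g.1 = μ := by
      intro j
      have h2 : g.1 j = g.1 i := by
        have := (hall j).trans (hall i).symm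
        exact mul_right_cancel₀ hfac.ne' this
      rw [h2]
      exact hi.symm
    rw [Finset.sum_congr rfl fun j _ => hconst j] at hSum
    simp only [Finset.sum_const, Finset.card_univ, Fintype.card_fin, nsmul_eq_mul] at hSum
    push_cast at hSum
    have h3 := hall i
    rw [hSum, sub_self] at h3
    have h4 : 0 < g.1 i * (1 / SS g.1 + a) := mul_pos (hneg i) hfac
    linarith

end cross

/-- a complex containing a cross-polytope with a maximal facet is not dominated by a complex with
few vertices -/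
theorem not_dominated {V₁ V₂ : Type*} [Fintype V₁] [Fintype V₂] [DecidableEq V₂]
    {K₁ : Set (Finset V₁)} {K₂ : Set (Finset V₂)} {m : ℕ} (hm : Fintype.card V₁ < m)
    (c : V₂ → Option (Fin (m + 1))) (v v' : Fin (m + 1) → V₂)
    (hv : ∀ j, c (v j) = some j) (hv' : ∀ j, c (v' j) = none)
    (hK : ∀ e : Fin (m + 1) → Bool, (Finset.univ.image fun j => if e j then v j else v' j) ∈ K₂)
    (hmax : ∀ T ∈ K₂, (∀ j, ∃ u ∈ T, c u = some j) → ∀ u ∈ T, c u ≠ none)
    (f : C(Realization K₂, Realization K₁)) (g : C(Realization K₁, Realization K₂))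
    (hgf : ContinuousMap.Homotopic (g.comp f) (ContinuousMap.id _)) : False := by
  have hcomp := compactSpace (K := K₁)
  obtain ⟨w, hw⟩ := homotopic_const (m := m + 1) (fun x : Realization K₁ => (x.1 : V₁ → ℝ))
    isClosedEmbedding_val (by omega) ((detect c hmax).comp g)
  refine not_homotopic_const ((detect c hmax).comp (cross v v' hK)) w
    (fun x a ha => detect_cross c v v' hv hv' hK hmax x a ha) ?_
  have h1 : ContinuousMap.Homotopic ((detect c hmax).comp ((g.comp f).comp (cross v v' hK)))
      ((detect c hmax).comp ((ContinuousMap.id _).comp (cross v v' hK))) :=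
    (ContinuousMap.Homotopic.refl _).comp (hgf.comp (ContinuousMap.Homotopic.refl _))
  have h2 : ContinuousMap.Homotopic (((detect c hmax).comp g).comp (f.comp (cross v v' hK)))
      ((ContinuousMap.const _ w).comp (f.comp (cross v v' hK))) :=
    hw.comp (ContinuousMap.Homotopic.refl _)
  exact h1.symm.trans h2

end Pool.Agent.V11203.Rips
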